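import Pool.Agent.Lib.MP_633d19_co.Final34

/-!
MP_633d19_co: the complete list of the triples `(Δ, μ, g)` for which Steffen's bound is
attained.
-/

namespace Pool.Agent.Results.MP_633d19_co.Complete

open Pool.Agent.Lib.MP_633d19_co

/-- The pairs `(μ, Δ)` with `2 μ < Δ` for which Steffen's bound is attained in girth four. -/
def GirthFour (μ Δ : ℕ) : Prop :=
  (μ = 3 ∧ (Δ = 12 ∨ (16 ≤ Δ ∧ Δ ≤ 18) ∨ (22 ≤ Δ ∧ Δ ≤ 24) ∨ 26 ≤ Δ)) ∨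
  μ = 4 ∨
  (μ = 5 ∧ ∃ m, Odd m ∧ Δ = 10 * m) ∨
  (μ = 6 ∧ ((22 ≤ Δ ∧ Δ ≤ 24) ∨ (30 ≤ Δ ∧ Δ ≤ 38) ∨ 42 ≤ Δ)) ∨
  (μ = 8 ∧ (Δ = 32 ∨ (44 ≤ Δ ∧ Δ ≤ 48) ∨ (62 ≤ Δ ∧ Δ ≤ 64) ∨ (74 ≤ Δ ∧ Δ ≤ 80) ∨
    (92 ≤ Δ ∧ Δ ≤ 96) ∨ (104 ≤ Δ ∧ Δ ≤ 112) ∨ (122 ≤ Δ ∧ Δ ≤ 128) ∨ (134 ≤ Δ ∧ Δ ≤ 144) ∨
    (152 ≤ Δ ∧ Δ ≤ 160) ∨ (164 ≤ Δ ∧ Δ ≤ 177) ∨ (182 ≤ Δ ∧ Δ ≤ 192) ∨
    (194 ≤ Δ ∧ Δ ≤ 209) ∨ 212 ≤ Δ)) ∨
  (μ = 10 ∧ ∃ m, Odd m ∧ 20 * m ≤ Δ + 2 ∧ Δ ≤ 20 * m) ∨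
  (μ = 12 ∧ Δ = 72)

/-- **Complete answer to Q1.** -/
theorem result (Δ μ g : ℕ) :
    ((stSet Δ μ g).Nonempty ↔ 3 ≤ g ∧ 1 ≤ μ ∧ μ ≤ Δ ∧ 2 ≤ Δ) ∧
    ((stSet Δ μ g).Nonempty →
      IsGreatest (stSet Δ μ g) (st Δ μ g) ∧
      (st Δ μ g = Δ + ⌈(μ : ℚ) / ((g / 2 : ℕ) : ℚ)⌉₊ ↔
        μ ≤ g / 2 ∨
        (2 * (⌈(μ : ℚ) / ((g / 2 : ℕ) : ℚ)⌉₊ - 1) * (g / 2) + 2 ≤ Δ ∧ Δ ≤ 2 * μ) ∨
        (g = 3 ∧ ∃ p, 2 * p * (μ - 1) + 2 ≤ Δ ∧ Δ ≤ 2 * p * μ) ∨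
        (g = 4 ∧ 2 * μ < Δ ∧ GirthFour μ Δ))) := by
  refine ⟨stSet_nonempty_iff, ?_⟩
  intro hne
  obtain ⟨hg3, hμ, hμΔ, hΔ⟩ := stSet_nonempty_iff.1 hne
  rcases Nat.lt_or_ge g 4 with hg4 | hg4
  · -- girth three
    have hg : g = 3 := by omega
    subst hg
    obtain ⟨h1, h2⟩ := st_three hμ hΔ hμΔ
    refine ⟨h1, ?_⟩
    rw [h2, ceil_one]
    have e1 : 3 / 2 = 1 := rfl
    rw [e1]
    constructor
    · intro h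
      exact Or.inr (Or.inr (Or.inl ⟨rfl, h⟩))
    · rintro (h | ⟨h, h'⟩ | ⟨_, h⟩ | ⟨h, _⟩)
      · have hμ1 : μ = 1 := by omega
        subst hμ1
        exact ⟨Δ, by omega, by omega⟩
      · exact ⟨1, by omega, by omega⟩
      · exact h
      · omega
  · by_cases hr : Δ ≤ 2 * μ ∨ μ ≤ g / 2
    · obtain ⟨h1, h2⟩ := st_range hg3 hμ hΔ hμΔ hr
      refine ⟨h1, ?_⟩
      rw [h2]
      constructor
      · rintro (h | h)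
        · exact Or.inl h
        · exact Or.inr (Or.inl h)
      · rintro (h | h | ⟨h, _⟩ | ⟨hg, h, _⟩)
        · exact Or.inl h
        · exact Or.inr h
        · omega
        · rcases hr with hr | hr
          · omega
          · exact Or.inl hr
    · push Not at hr
      obtain ⟨h1, h2⟩ := hr
      rcases Nat.lt_or_ge g 5 with hg5 | hg5
      · have hg : g = 4 := by omega
        subst hg
        have hμ3 : 3 ≤ μ := by omega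
        obtain ⟨h3, h4⟩ := st_four hμ3 h1
        refine ⟨h3, ?_⟩
        rw [h4]
        constructor
        · intro h
          exact Or.inr (Or.inr (Or.inr ⟨rfl, h1, h⟩))
        · rintro (h | ⟨_, h⟩ | ⟨h, _⟩ | ⟨_, _, h⟩)
          · omega
          · omega
          · omega
          · exact h
      · obtain ⟨h3, h4⟩ := st_no_equality hg3 hμ hΔ hμΔ h1 h2
          (fun t ht hμt _ => upper_girth_five hg5 ht hμt h1)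
        refine ⟨h3, ?_⟩
        constructor
        · intro h; omega
        · rintro (h | ⟨_, h⟩ | ⟨h, _⟩ | ⟨h, _⟩)
          · omega
          · omega
          · omega
          · omega

end Pool.Agent.Results.MP_633d19_co.Complete
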