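import Pool.Agent.Lib.MP_633d19_co.Main

/-!
MP_633d19_co: the value of `st Δ μ g` for all triples with `Δ ≤ 2 μ` or `μ ≤ ⌊g / 2⌋`, and the
triples in this range for which Steffen's bound is attained. In particular the bound is
attained for infinitely many triples with `g` even.
-/

namespace Pool.Agent.Results.MP_633d19_co.ExactValues

open Pool.Agent.Lib.MP_633d19_co

theorem result (Δ μ g : ℕ) (hg : 3 ≤ g) (hμ : 1 ≤ μ) (hΔ : 2 ≤ Δ) (hμΔ : μ ≤ Δ)
    (hrange : Δ ≤ 2 * μ ∨ μ ≤ g / 2) :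
    IsGreatest (stSet Δ μ g) (st Δ μ g) ∧
    st Δ μ g = Δ + 1 + (if μ ≤ g / 2 then 0 else (Δ - 2) / (2 * (g / 2))) ∧
    (st Δ μ g = Δ + ⌈(μ : ℚ) / ((g / 2 : ℕ) : ℚ)⌉₊ ↔
      μ ≤ g / 2 ∨ 2 * (⌈(μ : ℚ) / ((g / 2 : ℕ) : ℚ)⌉₊ - 1) * (g / 2) + 2 ≤ Δ) := by
  have hs : 1 ≤ g / 2 := by omega
  set s := g / 2 with hsdef
  have hsq : (0 : ℚ) < (s : ℚ) := by exact_mod_cast hs
  set b := ⌈(μ : ℚ) / (s : ℚ)⌉₊ with hb
  -- properties of the ceiling
  have hb1 : μ ≤ b * s := by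
    have h1 : (μ : ℚ) / (s : ℚ) ≤ (b : ℚ) := Nat.le_ceil _
    rw [div_le_iff₀ hsq] at h1
    exact_mod_cast h1
  have hb0 : 1 ≤ b := by
    rw [hb, Nat.one_le_ceil_iff]
    have : (0 : ℚ) < (μ : ℚ) := by exact_mod_cast hμ
    positivity
  have hb2 : (b - 1) * s < μ := by
    have h1 : b - 1 < b := by omega
    have h2 : ((b - 1 : ℕ) : ℚ) < (μ : ℚ) / (s : ℚ) := Nat.lt_ceil.1 h1
    rw [lt_div_iff₀ hsq] at h2
    exact_mod_cast h2
  have hval : IsGreatest (stSet Δ μ g) (Δ + 1 + (if μ ≤ s then 0 else (Δ - 2) / (2 * s))) := by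
    split_ifs with h
    · exact isGreatest_small hg hμ hΔ hμΔ h
    · rcases hrange with h1 | h1
      · exact isGreatest_large hg hμ hΔ hμΔ h1
      · exact absurd h1 h
  have hst := st_eq hval
  refine ⟨by rw [hst]; exact hval, hst, ?_⟩
  rw [hst]
  by_cases h : μ ≤ s
  · rw [if_pos h]
    have hb1' : b = 1 := by
      have h1 : (b - 1) * s < 1 * s := by omega
      have h2 : b - 1 < 1 := lt_of_mul_lt_mul_right h1 (by omega)
      omega
    constructor
    · intro _; exact Or.inl h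
    · intro _; rw [hb1']
  · rw [if_neg h]
    have hΔμ : Δ ≤ 2 * μ := by
      rcases hrange with h1 | h1
      · exact h1
      · exact absurd h1 h
    have hq : (Δ - 2) / (2 * s) < b := by
      rw [Nat.div_lt_iff_lt_mul (by omega)]
      have h1 : b * (2 * s) = 2 * (b * s) := by ring
      omega
    have hiff : b - 1 ≤ (Δ - 2) / (2 * s) ↔ (b - 1) * (2 * s) ≤ Δ - 2 :=
      Nat.le_div_iff_mul_le (by omega)
    have h2 : 2 * (b - 1) * s = (b - 1) * (2 * s) := by ring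
    rw [h2]
    constructor
    · intro h1
      right
      have h3 : b - 1 ≤ (Δ - 2) / (2 * s) := by omega
      have h4 := hiff.1 h3
      omega
    · rintro (h1 | h1)
      · exact absurd h1 h
      · have h4 := hiff.2 (by omega)
        omega

end Pool.Agent.Results.MP_633d19_co.ExactValues
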